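import Pool.Agent.Lib.MP_5938af_an.Defs

/-!
The space: a hyperbolic toral automorphism written as a shift, colouring shifts,
and the glued product.
-/

open Set Filter Topology

namespace Pool.Agent.Lib.MP_5938af_an

abbrev T := AddCircle (1 : ℝ)

noncomputable def lam : ℝ := (3 + Real.sqrt 5) / 2

lemma lam_ge : 2 ≤ lam := by
  have : (1 : ℝ) ≤ Real.sqrt 5 := by
    rw [show (1 : ℝ) = Real.sqrt 1 by simp]
    exact Real.sqrt_le_sqrt (by norm_num)
  unfold lam; linarith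

lemma lam_le : lam ≤ 3 := by
  have : Real.sqrt 5 ≤ 3 := by
    rw [show (3 : ℝ) = Real.sqrt 9 by
      rw [show (9 : ℝ) = 3 ^ 2 by norm_num]; simp]
    exact Real.sqrt_le_sqrt (by norm_num)
  unfold lam; linarith

lemma lam_pos : 0 < lam := by linarith [lam_ge]

lemma lam_add_inv : lam + lam⁻¹ = 3 := by
  have h5 : Real.sqrt 5 * Real.sqrt 5 = 5 := Real.mul_self_sqrt (by norm_num)
  have h : lam * (3 - lam) = 1 := by
    unfold lam; nlinarith
  have : lam⁻¹ = 3 - lam := by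
    have := lam_pos
    field_simp
    linarith
  rw [this]; ring

/-- The cat map as a shift space. -/
def Bs : Set (ℤ → T) := {x | ∀ i, x (i + 1) + x (i - 1) = 3 • x i}

def L (n : ℕ) : ℕ := (n + 1) * (4 * n + 3)

def Comp (a b : ℕ × ℤ → ℕ) : Prop :=
  ∀ n : ℕ, ∀ i j : ℤ, i ≠ j → |i - j| ≤ n → a (n, i) ≠ b (n, j)

def Ks : Set (ℕ × ℤ → ℕ) := {k | (∀ p, k p ≤ L p.1) ∧ Comp k k}

noncomputable def rho (n : ℕ) (t : T) : ℝ := ‖(3 ^ n : ℕ) • t - ((Real.sqrt 2 : ℝ) : T)‖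

def Y : Type := ℕ × ℤ → T × ℝ

noncomputable instance : MetricSpace Y :=
  PiCountable.metricSpace (F := fun _ : ℕ × ℤ => T × ℝ)

noncomputable def Phi (x : ℤ → T) (k : ℕ × ℤ → ℕ) : Y :=
  fun p => (x p.2, rho p.1 (x p.2) * k p)

def Xs : Set Y := {P | ∃ x ∈ Bs, ∃ k ∈ Ks, Phi x k = P}

lemma rho_nonneg (n : ℕ) (t : T) : 0 ≤ rho n t := norm_nonneg _

lemma rho_le_half (n : ℕ) (t : T) : rho n t ≤ 1 / 2 := by
  have := AddCircle.norm_le_half_period (1 : ℝ) (x := (3 ^ n : ℕ) • t - ((Real.sqrt 2 : ℝ) : T))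
    one_ne_zero
  simpa [rho] using this

lemma rho_lip (n : ℕ) (s t : T) : |rho n s - rho n t| ≤ 3 ^ n * dist s t := by
  unfold rho
  refine (abs_norm_sub_norm_le _ _).trans ?_
  rw [sub_sub_sub_cancel_right, ← smul_sub, dist_eq_norm]
  have := norm_nsmul_le (n := 3 ^ n) (a := s - t)
  simpa using this

lemma continuous_rho (n : ℕ) : Continuous (rho n) := by
  unfold rho
  fun_prop

lemma continuous_Phi : Continuous (fun q : (ℤ → T) × (ℕ × ℤ → ℕ) => Phi q.1 q.2) := by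
  have : Continuous (fun (q : (ℤ → T) × (ℕ × ℤ → ℕ)) (p : ℕ × ℤ) =>
      ((q.1 p.2, rho p.1 (q.1 p.2) * q.2 p) : T × ℝ)) → 
      Continuous (fun q : (ℤ → T) × (ℕ × ℤ → ℕ) => Phi q.1 q.2) := id
  refine this (continuous_pi fun p => ?_)
  refine Continuous.prodMk ?_ ?_
  · fun_prop
  · refine Continuous.mul ((continuous_rho _).comp (by fun_prop)) ?_
    exact (continuous_of_discreteTopology (f := fun m : ℕ => (m : ℝ))).comp (by fun_prop)

lemma isClosed_Bs : IsClosed Bs := by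
  have : Bs = ⋂ i : ℤ, {x : ℤ → T | x (i + 1) + x (i - 1) = 3 • x i} := by
    ext x; simp [Bs]
  rw [this]
  exact isClosed_iInter fun i => isClosed_eq (by fun_prop) (by fun_prop)

lemma isCompact_Ks : IsCompact Ks := by
  have h1 : IsCompact (Set.pi univ fun p : ℕ × ℤ => Iic (L p.1)) :=
    isCompact_univ_pi fun p => (Set.finite_Iic _).isCompact
  have h2 : IsClosed {k : ℕ × ℤ → ℕ | Comp k k} := by
    have : {k : ℕ × ℤ → ℕ | Comp k k} = ⋂ n : ℕ, ⋂ i : ℤ, ⋂ j : ℤ, ⋂ (_ : i ≠ j),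
        ⋂ (_ : |i - j| ≤ n), {k : ℕ × ℤ → ℕ | k (n, i) ≠ k (n, j)} := by
      ext k; simp [Comp]
    rw [this]
    refine isClosed_iInter fun n => isClosed_iInter fun i => isClosed_iInter fun j =>
      isClosed_iInter fun _ => isClosed_iInter fun _ => ?_
    have hc : Continuous fun k : ℕ × ℤ → ℕ => (k (n, i), k (n, j)) := by fun_prop
    exact (isClosed_discrete {q : ℕ × ℕ | q.1 ≠ q.2}).preimage hc
  have : Ks = (Set.pi univ fun p : ℕ × ℤ => Iic (L p.1)) ∩ {k | Comp k k} := by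
    ext k; simp only [Ks, Set.mem_pi, mem_ofPred_eq, mem_inter_iff, mem_univ, mem_Iic, true_imp_iff]
  rw [this]
  exact h1.inter_right h2

lemma isCompact_Xs : IsCompact Xs := by
  have : Xs = (fun q : (ℤ → T) × (ℕ × ℤ → ℕ) => Phi q.1 q.2) '' (Bs ×ˢ Ks) := by
    ext P
    simp only [Xs, mem_ofPred_eq, mem_image, mem_prod, Prod.exists]
    constructor
    · rintro ⟨x, hx, k, hk, h⟩; exact ⟨x, k, ⟨hx, hk⟩, h⟩
    · rintro ⟨x, k, ⟨hx, hk⟩, h⟩; exact ⟨x, hx, k, hk, h⟩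
  rw [this]
  exact (isClosed_Bs.isCompact.prod isCompact_Ks).image continuous_Phi

/-- A fresh colouring. -/
lemma exists_fresh (a b : ℕ × ℤ → ℕ) :
    ∃ z ∈ Ks, Comp z a ∧ Comp z b := by
  have key : ∀ p : ℕ × ℤ, ∃ m : ℕ, m < 4 * p.1 + 3 ∧ ∀ j : ℤ, |p.2 - j| ≤ p.1 →
      (p.2 % (p.1 + 1 : ℕ)).toNat + (p.1 + 1) * m ≠ a (p.1, j) ∧
      (p.2 % (p.1 + 1 : ℕ)).toNat + (p.1 + 1) * m ≠ b (p.1, j) := by
    rintro ⟨n, i⟩
    set r : ℕ := (i % (n + 1 : ℕ)).toNat
    set Fb : Finset ℕ := (Finset.Icc (i - n) (i + n)).image (fun j => a (n, j)) ∪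
      (Finset.Icc (i - n) (i + n)).image (fun j => b (n, j))
    set G : Finset ℕ := (Finset.range (4 * n + 3)).image (fun m => r + (n + 1) * m)
    have hI : (Finset.Icc (i - n) (i + n)).card = 2 * n + 1 := by
      rw [Int.card_Icc]; omega
    have h1 : Fb.card ≤ 4 * n + 2 := by
      refine (Finset.card_union_le _ _).trans ?_
      have e1 := Finset.card_image_le (s := Finset.Icc (i - n) (i + n)) (f := fun j => a (n, j))
      have e2 := Finset.card_image_le (s := Finset.Icc (i - n) (i + n)) (f := fun j => b (n, j))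
      omega
    have h2 : G.card = 4 * n + 3 := by
      rw [Finset.card_image_of_injective _ (fun m m' h => ?_), Finset.card_range]
      have : (n + 1) * m = (n + 1) * m' := by simpa using h
      exact Nat.eq_of_mul_eq_mul_left (Nat.succ_pos n) this
    obtain ⟨e, heG, heF⟩ := Finset.exists_mem_notMem_of_card_lt_card (s := Fb) (t := G) (by omega)
    obtain ⟨m, hm, rfl⟩ := Finset.mem_image.1 heG
    refine ⟨m, Finset.mem_range.1 hm, fun j hj => ?_⟩
    have hjI : j ∈ Finset.Icc (i - n) (i + n) := by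
      rw [Finset.mem_Icc]; rw [abs_le] at hj; constructor <;> linarith [hj.1, hj.2]
    constructor
    · intro h
      exact heF (Finset.mem_union_left _ (Finset.mem_image.2 ⟨j, hjI, h.symm⟩))
    · intro h
      exact heF (Finset.mem_union_right _ (Finset.mem_image.2 ⟨j, hjI, h.symm⟩))
  choose m hm using key
  have hr : ∀ (n : ℕ) (i : ℤ), (i % (n + 1 : ℕ)).toNat < n + 1 := by
    intro n i
    have h1 : i % (n + 1 : ℕ) < (n + 1 : ℕ) := Int.emod_lt_of_pos _ (by positivity)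
    have h2 : 0 ≤ i % (n + 1 : ℕ) := Int.emod_nonneg _ (by positivity)
    omega
  refine ⟨fun p => (p.2 % (p.1 + 1 : ℕ)).toNat + (p.1 + 1) * m p, ⟨?_, ?_⟩, ?_, ?_⟩
  · rintro ⟨n, i⟩
    have h1 := hr n i
    have h2 := (hm (n, i)).1
    simp only [L] at *
    nlinarith
  · intro n i j hij hd h
    simp only at h
    have h1 := hr n i
    have h2 := hr n j
    have h3 : (i % (n + 1 : ℕ)).toNat = (j % (n + 1 : ℕ)).toNat := by
      have := congrArg (fun t => t % (n + 1)) h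
      simp only [Nat.add_mul_mod_self_left] at this
      rwa [Nat.mod_eq_of_lt h1, Nat.mod_eq_of_lt h2] at this
    have h4 : 0 ≤ i % (n + 1 : ℕ) := Int.emod_nonneg _ (by positivity)
    have h5 : 0 ≤ j % (n + 1 : ℕ) := Int.emod_nonneg _ (by positivity)
    have h6 : i % (n + 1 : ℕ) = j % (n + 1 : ℕ) := by omega
    have h7 : ((n + 1 : ℕ) : ℤ) ∣ i - j := Int.modEq_iff_dvd.1 h6.symm
    have h8 := Int.le_of_dvd (abs_pos.2 (sub_ne_zero.2 hij)) ((dvd_abs _ _).2 h7)
    push_cast at h8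
    linarith
  · intro n i j _ hd
    exact ((hm (n, i)).2 j hd).1
  · intro n i j _ hd
    exact ((hm (n, i)).2 j hd).2

end Pool.Agent.Lib.MP_5938af_an
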