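import Pool.Agent.Lib.MP_5938af_an.Basic

/-!
Connected sets built from an arc of the base and single-site changes of colour.
-/

open Set Filter Topology

namespace Pool.Agent.Lib.MP_5938af_an

noncomputable def arc (x : ℤ → T) (μ t : ℝ) : ℤ → T := fun i => x i + ((t * μ ^ i : ℝ) : T)

lemma arc_zero (x : ℤ → T) (μ : ℝ) : arc x μ 0 = x := by
  ext i; simp [arc]

lemma arc_mem {x : ℤ → T} (hx : x ∈ Bs) {μ : ℝ} (hμ : 0 < μ) (hμ3 : μ + μ⁻¹ = 3) (t : ℝ) :
    arc x μ t ∈ Bs := by
  intro i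
  have h := hx i
  have e : t * μ ^ (i + 1) + t * μ ^ (i - 1) = 3 • (t * μ ^ i) := by
    rw [zpow_add_one₀ hμ.ne', zpow_sub_one₀ hμ.ne', nsmul_eq_mul]
    have : μ ^ i * μ + μ ^ i * μ⁻¹ = μ ^ i * 3 := by rw [← mul_add, hμ3]
    push_cast
    linear_combination t * this
  simp only [arc]
  rw [smul_add, ← h, add_add_add_comm, ← AddCircle.coe_add, e, AddCircle.coe_nsmul]

lemma continuous_arc (x : ℤ → T) (μ : ℝ) : Continuous (arc x μ) := by
  refine continuous_pi fun i => ?_
  unfold arc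
  exact continuous_const.add ((AddCircle.continuous_mk' 1).comp (by fun_prop))

lemma norm_coe_le (r : ℝ) : ‖(r : T)‖ ≤ |r| := by
  have := QuotientAddGroup.norm_mk_le_norm (S := AddSubgroup.zmultiples (1 : ℝ)) (m := r)
  simpa using this

lemma exists_lift (s : T) : ∃ r : ℝ, (r : T) = s ∧ |r| = ‖s‖ := by
  obtain ⟨r, rfl⟩ := QuotientAddGroup.mk_surjective s
  refine ⟨r - round r, ?_, ?_⟩
  · rw [AddCircle.coe_sub]
    have : (((round r : ℤ) : ℝ) : T) = 0 := by
      rw [AddCircle.coe_eq_zero_iff]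
      exact ⟨round r, by simp⟩
    rw [this, sub_zero]
  · have := AddCircle.norm_eq (1 : ℝ) (x := r)
    simpa using this.symm

def Sset (x : ℤ → T) (μ η : ℝ) : Set (ℕ × ℤ) :=
  {p | rho p.1 (x p.2) ≤ 3 ^ p.1 * η * μ ^ p.2}

def Cset (x : ℤ → T) (k : ℕ × ℤ → ℕ) (μ η : ℝ) : Set Y :=
  {P | ∃ t : ℝ, |t| ≤ η ∧ ∃ c ∈ Ks, (∀ p ∉ Sset x μ η, c p = k p) ∧ Phi (arc x μ t) c = P}

lemma exists_zero {x : ℤ → T} {μ η : ℝ} (hμ : 0 < μ) {p : ℕ × ℤ} (hp : p ∈ Sset x μ η) :
    ∃ t : ℝ, |t| ≤ η ∧ rho p.1 (arc x μ t p.2) = 0 := by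
  obtain ⟨n, i⟩ := p
  obtain ⟨r, hr, hr'⟩ := exists_lift ((3 ^ n : ℕ) • x i - ((Real.sqrt 2 : ℝ) : T))
  have hpos : 0 < (3 : ℝ) ^ n * μ ^ i := by positivity
  have hμi : 0 < μ ^ i := by positivity
  refine ⟨-r / (3 ^ n * μ ^ i), ?_, ?_⟩
  · rw [abs_div, abs_neg, abs_of_pos hpos, div_le_iff₀ hpos, hr']
    have : rho n (x i) ≤ 3 ^ n * η * μ ^ i := hp
    unfold rho at this
    linarith
  · simp only [rho, arc]
    rw [smul_add, ← AddCircle.coe_nsmul]
    have e : (3 ^ n : ℕ) • (-r / (3 ^ n * μ ^ i) * μ ^ i) = -r := by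
      rw [nsmul_eq_mul]; push_cast; field_simp
    rw [e, AddCircle.coe_neg, hr]
    simp

lemma Cset_preconnected (x : ℤ → T) {k : ℕ × ℤ → ℕ} (hk : k ∈ Ks) {μ η : ℝ} (hμ : 0 < μ)
    (hη : 0 ≤ η) : IsPreconnected (Cset x k μ η) := by
  classical
  set C := Cset x k μ η with hC
  set S := Sset x μ η with hS
  set D := connectedComponentIn C (Phi x k) with hD
  have hbase : Phi x k ∈ C := ⟨0, by simpa using hη, k, hk, fun _ _ => rfl, by rw [arc_zero]⟩
  have hbaseD : Phi x k ∈ D := mem_connectedComponentIn hbase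
  -- arcs
  have harc : ∀ c ∈ Ks, (∀ p ∉ S, c p = k p) → ∀ s t : ℝ, |s| ≤ η → |t| ≤ η →
      Phi (arc x μ s) c ∈ D → Phi (arc x μ t) c ∈ D := by
    intro c hc hck s t hs ht hsD
    have hcont : Continuous fun u : ℝ => Phi (arc x μ u) c :=
      continuous_Phi.comp ((continuous_arc x μ).prodMk continuous_const)
    have hpre : IsPreconnected ((fun u : ℝ => Phi (arc x μ u) c) '' Icc (-η) η) :=
      isPreconnected_Icc.image _ hcont.continuousOn
    have hsub : (fun u : ℝ => Phi (arc x μ u) c) '' Icc (-η) η ⊆ C := by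
      rintro _ ⟨u, hu, rfl⟩
      exact ⟨u, abs_le.2 hu, c, hc, hck, rfl⟩
    have h1 := hpre.subset_connectedComponentIn ⟨s, abs_le.1 hs, rfl⟩ hsub
    rw [← connectedComponentIn_eq hsD] at h1
    exact h1 ⟨t, abs_le.1 ht, rfl⟩
  -- single-site moves
  have hmove : ∀ c ∈ Ks, (∀ p ∉ S, c p = k p) → ∀ c' ∈ Ks, (∀ p ∉ S, c' p = k p) →
      ∀ q, (∀ p, p ≠ q → c p = c' p) → Phi x c ∈ D → Phi x c' ∈ D := by
    intro c hc hck c' hc' hck' q hq hcD
    by_cases hqS : q ∈ S
    · obtain ⟨t, ht, ht0⟩ := exists_zero hμ hqS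
      have h0 : |(0 : ℝ)| ≤ η := by simpa using hη
      have h1 := harc c hc hck 0 t h0 ht (by rwa [arc_zero])
      have h2 : Phi (arc x μ t) c = Phi (arc x μ t) c' := by
        funext p
        by_cases hp : p = q
        · subst hp; simp only [Phi, ht0, zero_mul]
        · simp only [Phi, hq p hp]
      rw [h2] at h1
      have h3 := harc c' hc' hck' t 0 ht h0 h1
      rwa [arc_zero] at h3
    · have : c = c' := by
        funext p
        by_cases hp : p = q
        · subst hp; rw [hck p hqS, hck' p hqS]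
        · exact hq p hp
      rwa [← this]
  -- mixing two compatible colourings
  have hmix : ∀ a ∈ Ks, (∀ p ∉ S, a p = k p) → ∀ b ∈ Ks, (∀ p ∉ S, b p = k p) →
      Comp a b → Phi x a ∈ D → Phi x b ∈ D := by
    intro a ha hak b hb hbk hab haD
    have hvalid : ∀ F : Finset (ℕ × ℤ), F.piecewise b a ∈ Ks := by
      intro F
      refine ⟨fun p => ?_, fun n i j hij hd => ?_⟩
      · by_cases hp : p ∈ F
        · rw [Finset.piecewise_eq_of_mem _ _ _ hp]; exact hb.1 p
        · rw [Finset.piecewise_eq_of_notMem _ _ _ hp]; exact ha.1 p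
      · have hd' : |j - i| ≤ n := by rwa [abs_sub_comm]
        by_cases hi : (n, i) ∈ F <;> by_cases hj : (n, j) ∈ F
        · rw [Finset.piecewise_eq_of_mem _ _ _ hi, Finset.piecewise_eq_of_mem _ _ _ hj]
          exact hb.2 n i j hij hd
        · rw [Finset.piecewise_eq_of_mem _ _ _ hi, Finset.piecewise_eq_of_notMem _ _ _ hj]
          exact (hab n j i hij.symm hd').symm
        · rw [Finset.piecewise_eq_of_notMem _ _ _ hi, Finset.piecewise_eq_of_mem _ _ _ hj]
          exact hab n i j hij hd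
        · rw [Finset.piecewise_eq_of_notMem _ _ _ hi, Finset.piecewise_eq_of_notMem _ _ _ hj]
          exact ha.2 n i j hij hd
    have hoff : ∀ F : Finset (ℕ × ℤ), ∀ p ∉ S, F.piecewise b a p = k p := by
      intro F p hp
      by_cases hF : p ∈ F
      · rw [Finset.piecewise_eq_of_mem _ _ _ hF]; exact hbk p hp
      · rw [Finset.piecewise_eq_of_notMem _ _ _ hF]; exact hak p hp
    have hall : ∀ F : Finset (ℕ × ℤ), Phi x (F.piecewise b a) ∈ D := by
      intro F
      induction F using Finset.induction_on with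
      | empty => simpa using haD
      | insert q F hq ih =>
        refine hmove _ (hvalid F) (hoff F) _ (hvalid _) (hoff _) q (fun p hp => ?_) ih
        rw [Finset.piecewise_insert_of_ne _ _ _ hp]
    have hlim : Tendsto (fun F : Finset (ℕ × ℤ) => F.piecewise b a) atTop (𝓝 b) := by
      refine tendsto_pi_nhds.2 fun p => ?_
      refine tendsto_const_nhds.congr' ?_
      filter_upwards [eventually_ge_atTop ({p} : Finset (ℕ × ℤ))] with F hF
      rw [Finset.piecewise_eq_of_mem _ _ _ (hF (Finset.mem_singleton_self p))]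
    have hcont : Continuous fun c : ℕ × ℤ → ℕ => Phi x c :=
      continuous_Phi.comp (continuous_const.prodMk continuous_id)
    have hcl : Phi x b ∈ closure D :=
      mem_closure_of_tendsto ((hcont.tendsto b).comp hlim) (Eventually.of_forall hall)
    have hbC : Phi x b ∈ C := ⟨0, by simpa using hη, b, hb, hbk, by rw [arc_zero]⟩
    have hpre : IsPreconnected (insert (Phi x b) D) :=
      isPreconnected_connectedComponentIn.subset_closure (subset_insert _ _)
        (insert_subset hcl subset_closure)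
    exact hpre.subset_connectedComponentIn (mem_insert_of_mem _ hbaseD)
      (insert_subset hbC (connectedComponentIn_subset _ _)) (mem_insert _ _)
  have hCD : C ⊆ D := by
    rintro _ ⟨t, ht, c, hc, hck, rfl⟩
    obtain ⟨z, hz, hzk, hzc⟩ := exists_fresh k c
    set w : ℕ × ℤ → ℕ := fun p => if p ∈ S then z p else k p with hw
    have hwk : ∀ p ∉ S, w p = k p := fun p hp => by simp [hw, hp]
    have hkw : Comp k w := by
      intro n i j hij hd
      have hd' : |j - i| ≤ n := by rwa [abs_sub_comm]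
      by_cases hj : (n, j) ∈ S
      · simp only [hw, hj, if_true]; exact (hzk n j i hij.symm hd').symm
      · simp only [hw, hj, if_false]; exact hk.2 n i j hij hd
    have hwc : Comp w c := by
      intro n i j hij hd
      by_cases hi : (n, i) ∈ S
      · simp only [hw, hi, if_true]; exact hzc n i j hij hd
      · simp only [hw, hi, if_false]; rw [← hck _ hi]; exact hc.2 n i j hij hd
    have hwK : w ∈ Ks := by
      refine ⟨fun p => ?_, fun n i j hij hd => ?_⟩
      · by_cases hp : p ∈ S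
        · simp only [hw, hp, if_true]; exact hz.1 p
        · simp only [hw, hp, if_false]; exact hk.1 p
      · by_cases hi : (n, i) ∈ S
        · by_cases hj : (n, j) ∈ S
          · simp only [hw, hi, hj, if_true]; exact hz.2 n i j hij hd
          · simp only [hw, hi, hj, if_true, if_false]; exact hzk n i j hij hd
        · rw [hwk _ hi]; exact hkw n i j hij hd
    have h1 := hmix k hk (fun _ _ => rfl) w hwK hwk hkw hbaseD
    have h2 := hmix w hwK hwk c hc hck hwc h1
    exact harc c hc hck 0 t (by simpa using hη) ht (by rwa [arc_zero])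
  have : C = D := Subset.antisymm hCD (connectedComponentIn_subset _ _)
  rw [this]
  exact isPreconnected_connectedComponentIn

lemma Cset_bound {x : ℤ → T} {k : ℕ × ℤ → ℕ} (hk : k ∈ Ks) {μ η : ℝ} (hμ : 0 < μ)
    {P : Y} (hP : P ∈ Cset x k μ η) (p : ℕ × ℤ) :
    dist (P p) (Phi x k p) ≤ (2 * L p.1 + 1) * 3 ^ p.1 * η * μ ^ p.2 := by
  obtain ⟨t, ht, c, hc, hck, rfl⟩ := hP
  obtain ⟨n, i⟩ := p
  have hη : 0 ≤ η := (abs_nonneg t).trans ht
  have hμi : 0 < μ ^ i := by positivity
  have h3 : (1 : ℝ) ≤ 3 ^ n := one_le_pow₀ (by norm_num)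
  have hL : (0 : ℝ) ≤ L n := by positivity
  have hd : dist (arc x μ t i) (x i) ≤ η * μ ^ i := by
    simp only [arc, dist_eq_norm, add_sub_cancel_left]
    refine (norm_coe_le _).trans ?_
    rw [abs_mul, abs_of_pos hμi]
    gcongr
  set e : ℝ := 3 ^ n * η * μ ^ i with he
  have he0 : 0 ≤ e := by positivity
  have hde : η * μ ^ i ≤ e := by
    have : 0 ≤ η * μ ^ i := by positivity
    rw [he]; nlinarith
  have hr : |rho n (arc x μ t i) - rho n (x i)| ≤ e := by
    refine (rho_lip _ _ _).trans ?_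
    rw [he, mul_assoc]
    gcongr
  have hgoal : (2 * L n + 1) * 3 ^ n * η * μ ^ i = (2 * L n + 1) * e := by rw [he]; ring
  have hcL : (c (n, i) : ℝ) ≤ L n := by exact_mod_cast hc.1 (n, i)
  have hkL : (k (n, i) : ℝ) ≤ L n := by exact_mod_cast hk.1 (n, i)
  have hc0 : (0 : ℝ) ≤ c (n, i) := by positivity
  have hk0 : (0 : ℝ) ≤ k (n, i) := by positivity
  have hLe : 0 ≤ L n * e := by positivity
  simp only [Phi]
  rw [hgoal, Prod.dist_eq, max_le_iff]
  refine ⟨by nlinarith, ?_⟩
  simp only [Real.dist_eq]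
  have r0 := rho_nonneg n (x i)
  have r1 := rho_nonneg n (arc x μ t i)
  by_cases hS : (n, i) ∈ Sset x μ η
  · have h1 : rho n (x i) ≤ e := hS
    have h2 : rho n (arc x μ t i) ≤ 2 * e := by linarith [(abs_le.1 hr).2]
    have h4 : rho n (arc x μ t i) * c (n, i) ≤ 2 * e * L n := by gcongr
    have h5 : rho n (x i) * k (n, i) ≤ e * L n := by gcongr
    have h6 : 0 ≤ rho n (arc x μ t i) * c (n, i) := by positivity
    have h7 : 0 ≤ rho n (x i) * k (n, i) := by positivity
    rw [abs_le]; constructor <;> nlinarith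
  · rw [hck _ hS, ← sub_mul, abs_mul, abs_of_nonneg hk0]
    have : |rho n (arc x μ t i) - rho n (x i)| * k (n, i) ≤ e * L n := by gcongr
    nlinarith

end Pool.Agent.Lib.MP_5938af_an
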