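import Mathlib

/-!
Definitions of the problem file: local stable and unstable sets and continua,
cw-expansiveness, cw-local-product-structure, cw-hyperbolicity,
non-wandering set and periodic points.
-/

namespace Pool.Agent.Lib.MP_5938af_an

variable {X : Type} [MetricSpace X]

/-- `W^s_c(x) = {y : d(f^n x, f^n y) ≤ c for all n ≥ 0}`. -/
def Ws (f : X ≃ₜ X) (c : ℝ) (x : X) : Set X :=
  {y | ∀ n : ℕ, dist (f^[n] x) (f^[n] y) ≤ c}

/-- `W^u_c(x) = {y : d(f^{-n} x, f^{-n} y) ≤ c for all n ≥ 0}`. -/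
def Wu (f : X ≃ₜ X) (c : ℝ) (x : X) : Set X :=
  {y | ∀ n : ℕ, dist (f.symm^[n] x) (f.symm^[n] y) ≤ c}

/-- The local stable continuum: the connected component of `W^s_c(x)` containing `x`. -/
def Cs (f : X ≃ₜ X) (c : ℝ) (x : X) : Set X :=
  connectedComponentIn (Ws f c x) x

/-- The local unstable continuum: the connected component of `W^u_c(x)` containing `x`. -/
def Cu (f : X ≃ₜ X) (c : ℝ) (x : X) : Set X :=
  connectedComponentIn (Wu f c x) x

/-- Continuum-wise expansiveness. -/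
def CwExpansive (f : X ≃ₜ X) : Prop :=
  ∃ c : ℝ, 0 < c ∧ ∀ x : X, IsTotallyDisconnected (Ws f c x ∩ Wu f c x)

/-- The cw-local-product-structure. -/
def CwLocalProduct (f : X ≃ₜ X) : Prop :=
  ∀ ε : ℝ, 0 < ε → ∃ δ : ℝ, 0 < δ ∧
    ∀ x y : X, dist x y < δ → (Cs f ε x ∩ Cu f ε y).Nonempty

/-- cw-hyperbolicity: cw-expansive with cw-local-product-structure. -/
def CwHyperbolic (f : X ≃ₜ X) : Prop :=
  CwExpansive f ∧ CwLocalProduct f

/-- The periodic points: `f^n x = x` for some `n ≥ 1`. -/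
def Per (f : X ≃ₜ X) : Set X :=
  {x | ∃ n : ℕ, 1 ≤ n ∧ f^[n] x = x}

/-- The non-wandering set: every neighbourhood `U` of `x` meets `f^n U` for some `n ≥ 1`. -/
def NonWandering (f : X ≃ₜ X) : Set X :=
  {x | ∀ U ∈ nhds x, ∃ n : ℕ, 1 ≤ n ∧ (f^[n] '' U ∩ U).Nonempty}

end Pool.Agent.Lib.MP_5938af_an
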