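import Pool.Agent.Lib.MP_5938af_an.Connect

/-!
The shift on the glued product is cw-hyperbolic and has no periodic point.
-/

open Set Filter Topology Uniformity

namespace Pool.Agent.Lib.MP_5938af_an

/-! ### Metric lemmas -/

lemma uc_coord (p : ℕ × ℤ) : UniformContinuous (fun P : Y => P p) :=
  Pi.uniformContinuous_proj (fun _ : ℕ × ℤ => T × ℝ) p

lemma close_coords (s : Set (ℕ × ℤ)) (hs : s.Finite) (b : ℕ × ℤ → ℝ) (hb : ∀ p, 0 < b p) :
    ∃ δ : ℝ, 0 < δ ∧ ∀ P Q : Y, dist P Q < δ → ∀ p ∈ s, dist (P p) (Q p) < b p := by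
  have h : ∀ᶠ q : Y × Y in 𝓤 Y, ∀ p ∈ s, dist (q.1 p) (q.2 p) < b p := by
    rw [eventually_all_finite hs]
    intro p _
    exact uc_coord p (Metric.dist_mem_uniformity (hb p))
  obtain ⟨δ, hδ, h'⟩ := Metric.mem_uniformity_dist.1 h
  exact ⟨δ, hδ, fun P Q hPQ => h' hPQ⟩

lemma close_of_coords (a : ℕ × ℤ → ℝ) {ε : ℝ} (hε : 0 < ε) :
    ∃ η : ℝ, 0 < η ∧ ∀ P Q : Y, (∀ p, dist (P p) (Q p) ≤ a p * η) → dist P Q ≤ ε := by
  have hsum : Summable fun p : ℕ × ℤ => ((2 : ℝ)⁻¹) ^ Encodable.encode p := by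
    simpa [one_div] using summable_geometric_two_encode (ι := ℕ × ℤ)
  have hlim : Tendsto (fun η : ℝ => ∑' p : ℕ × ℤ, min (((2 : ℝ)⁻¹) ^ Encodable.encode p)
      (|a p * η|)) (𝓝 0) (𝓝 (∑' _p : ℕ × ℤ, (0 : ℝ))) := by
    refine tendsto_tsum_of_dominated_convergence hsum (fun p => ?_) (Eventually.of_forall ?_)
    · have hc : Continuous fun η : ℝ => min (((2 : ℝ)⁻¹) ^ Encodable.encode p) (|a p * η|) := by
        fun_prop
      have := hc.tendsto 0
      simpa using this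
    · intro η p
      rw [Real.norm_eq_abs, abs_of_nonneg (le_min (by positivity) (abs_nonneg _))]
      exact min_le_left _ _
  rw [tsum_zero] at hlim
  have h1 := (hlim.eventually (gt_mem_nhds hε)).filter_mono (nhdsWithin_le_nhds (s := Ioi 0))
  obtain ⟨η, hη, hη0⟩ := (h1.and self_mem_nhdsWithin).exists
  refine ⟨η, hη0, fun P Q hPQ => le_trans ?_ hη.le⟩
  have e : dist P Q = ∑' p : ℕ × ℤ, min (((2 : ℝ)⁻¹) ^ Encodable.encode p) (dist (P p) (Q p)) := rfl
  rw [e]
  refine Summable.tsum_le_tsum (fun p => min_le_min_left _ ((hPQ p).trans (le_abs_self _))) ?_ ?_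
  · exact hsum.of_nonneg_of_le (fun p => le_min (by positivity) dist_nonneg)
      (fun p => min_le_left _ _)
  · exact hsum.of_nonneg_of_le (fun p => le_min (by positivity) (abs_nonneg _))
      (fun p => min_le_left _ _)

/-! ### The shift -/

def sh (m : ℤ) (P : Y) : Y := fun p => P (p.1, p.2 + m)

lemma continuous_sh (m : ℤ) : Continuous (sh m) := by
  have : Continuous (fun (P : Y) (p : ℕ × ℤ) => P (p.1, p.2 + m)) → Continuous (sh m) := id
  exact this (continuous_pi fun p => (uc_coord _).continuous)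

lemma sh_sh (m l : ℤ) (P : Y) : sh m (sh l P) = sh (m + l) P := by
  funext p; simp only [sh, add_assoc]

lemma sh_zero (P : Y) : sh 0 P = P := by
  funext p; simp only [sh, add_zero]

lemma sh_mem (m : ℤ) {P : Y} (hP : P ∈ Xs) : sh m P ∈ Xs := by
  obtain ⟨x, hx, k, hk, rfl⟩ := hP
  refine ⟨fun i => x (i + m), fun i => ?_, fun p => k (p.1, p.2 + m), ⟨fun p => hk.1 _, ?_⟩, rfl⟩
  · have := hx (i + m)
    simp only
    rw [← this]
    congr 2 <;> ring
  · intro n i j hij hd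
    exact hk.2 n (i + m) (j + m) (by simpa using hij) (by simpa using hd)

instance : CompactSpace Xs := isCompact_iff_compactSpace.1 isCompact_Xs

instance : Nonempty Xs := by
  obtain ⟨z, hz, -⟩ := exists_fresh (fun _ => 0) (fun _ => 0)
  exact ⟨⟨Phi 0 z, 0, fun i => by simp, z, hz, rfl⟩⟩

def shift : Xs ≃ₜ Xs where
  toFun P := ⟨sh 1 P, sh_mem 1 P.2⟩
  invFun P := ⟨sh (-1) P, sh_mem (-1) P.2⟩
  left_inv P := by apply Subtype.ext; simp [sh_sh, sh_zero]
  right_inv P := by apply Subtype.ext; simp [sh_sh, sh_zero]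
  continuous_toFun := ((continuous_sh 1).comp continuous_subtype_val).subtype_mk _
  continuous_invFun := ((continuous_sh (-1)).comp continuous_subtype_val).subtype_mk _

lemma shift_iter (n : ℕ) (P : Xs) : ((shift^[n] P : Xs) : Y) = sh n P := by
  induction n with
  | zero => simp [sh_zero]
  | succ n ih =>
    rw [Function.iterate_succ_apply']
    change sh 1 (shift^[n] P : Xs) = _
    rw [ih, sh_sh]; congr 1; push_cast; ring

lemma shift_symm_iter (n : ℕ) (P : Xs) : ((shift.symm^[n] P : Xs) : Y) = sh (-n) P := by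
  induction n with
  | zero => simp [sh_zero]
  | succ n ih =>
    rw [Function.iterate_succ_apply']
    change sh (-1) (shift.symm^[n] P : Xs) = _
    rw [ih, sh_sh]; congr 1; push_cast; ring

/-! ### Maximum principle -/

lemma max_principle (w : ℤ → ℝ) (hw : ∀ i, w (i + 1) + w (i - 1) = 3 * w i) (C : ℝ)
    (hC : ∀ i, |w i| ≤ C) (i : ℤ) : w i = 0 := by
  have h : ∀ n : ℕ, ∀ i, |w i| ≤ (2 / 3) ^ n * C := by
    intro n
    induction n with
    | zero => simpa using hC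
    | succ n ih =>
      intro i
      have h1 := abs_le.1 (ih (i + 1))
      have h2 := abs_le.1 (ih (i - 1))
      have h3 := hw i
      rw [pow_succ, abs_le]
      constructor <;> linarith [h1.1, h1.2, h2.1, h2.2]
  have hlim : Tendsto (fun n : ℕ => ((2 : ℝ) / 3) ^ n * C) atTop (𝓝 (0 * C)) :=
    (tendsto_pow_atTop_nhds_zero_of_lt_one (by norm_num) (by norm_num)).mul_const C
  rw [zero_mul] at hlim
  have := ge_of_tendsto' hlim (fun n => h n i)
  exact abs_nonpos_iff.1 this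

lemma base_expansive {x y : ℤ → T} (hx : x ∈ Bs) (hy : y ∈ Bs)
    (h : ∀ i, dist (x i) (y i) < 1 / 6) : x = y := by
  choose r hr hr' using fun i => exists_lift (x i - y i)
  have hb : ∀ i, |r i| < 1 / 6 := fun i => by rw [hr', ← dist_eq_norm]; exact h i
  have hrec : ∀ i, r (i + 1) + r (i - 1) = 3 * r i := by
    intro i
    have h0 : ((r (i + 1) + r (i - 1) - 3 • r i : ℝ) : T) = 0 := by
      rw [AddCircle.coe_sub, AddCircle.coe_add, AddCircle.coe_nsmul, hr, hr, hr, smul_sub,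
        ← hx i, ← hy i]
      abel
    rw [AddCircle.coe_eq_zero_iff] at h0
    obtain ⟨m, hm⟩ := h0
    simp only [zsmul_eq_mul, mul_one, nsmul_eq_mul, Nat.cast_ofNat] at hm
    have h1 := abs_lt.1 (hb (i + 1))
    have h2 := abs_lt.1 (hb (i - 1))
    have h3 := abs_lt.1 (hb i)
    have h4 : (m : ℝ) < 1 := by linarith [h1.2, h2.2, h3.1]
    have h5 : (-1 : ℝ) < m := by linarith [h1.1, h2.1, h3.2]
    have h6 : m < 1 := by exact_mod_cast h4
    have h7 : -1 < m := by exact_mod_cast h5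
    have h8 : m = 0 := by omega
    rw [h8] at hm
    simp only [Int.cast_zero] at hm
    linarith
  funext i
  have := max_principle r hrec (1 / 6) (fun i => (hb i).le) i
  have h2 := hr i
  rw [this] at h2
  exact sub_eq_zero.1 (by simpa using h2.symm)

lemma rho_ne_zero_of_periodic {x : ℤ → T} (hx : x ∈ Bs) {m : ℕ} (hm : 1 ≤ m)
    (hper : ∀ i, x (i + m) = x i) (n : ℕ) (i : ℤ) : rho n (x i) ≠ 0 := by
  have hnot : Real.sqrt 2 ∉ Submodule.span ℚ ({1} : Set ℝ) := by
    rw [Submodule.mem_span_singleton]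
    rintro ⟨q, hq⟩
    exact irrational_sqrt_two ⟨q, by simpa using hq⟩
  obtain ⟨ψ, hψ, hψ1⟩ := Submodule.exists_dual_map_eq_bot_of_notMem hnot inferInstance
  have h1 : ψ 1 = 0 := by
    have : ψ 1 ∈ (Submodule.span ℚ ({1} : Set ℝ)).map ψ :=
      Submodule.mem_map_of_mem (Submodule.mem_span_singleton_self _)
    rw [hψ1] at this
    simpa using this
  let g : T →+ ℚ := QuotientAddGroup.lift (AddSubgroup.zmultiples (1 : ℝ)) ψ.toAddMonoidHom (by
    rintro _ ⟨z, rfl⟩
    simp only [AddMonoidHom.mem_ker, map_zsmul]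
    simp [h1])
  have hg : ∀ r : ℝ, g (r : T) = ψ r := fun r => rfl
  set w : ℤ → ℝ := fun i => (g (x i) : ℝ) with hw
  have hrec : ∀ i, w (i + 1) + w (i - 1) = 3 * w i := by
    intro i
    have := congrArg g (hx i)
    rw [map_add, map_nsmul, nsmul_eq_mul] at this
    simp only [hw]
    exact_mod_cast this
  have hp : Function.Periodic w (m : ℤ) := fun i => by simp only [hw, hper]
  have hbd : ∀ i, |w i| ≤ ∑ j ∈ Finset.Ico (0 : ℤ) m, |w j| := by
    intro i
    have hm0 : (0 : ℤ) < m := by exact_mod_cast hm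
    have e : w i = w (i % m) := by
      have := hp.int_mul (i / m) (i % m)
      simp only [Int.cast_id] at this
      rw [← this]; congr 1
      have := Int.emod_add_mul_ediv i m
      linarith
    rw [e]
    exact Finset.single_le_sum (f := fun j => |w j|) (fun _ _ => abs_nonneg _)
      (Finset.mem_Ico.2 ⟨Int.emod_nonneg _ hm0.ne', Int.emod_lt_of_pos _ hm0⟩)
  have h0 := max_principle w hrec _ hbd i
  have h0' : g (x i) = 0 := by simpa [hw] using h0
  intro hr
  have h2 : (3 ^ n : ℕ) • x i - ((Real.sqrt 2 : ℝ) : T) = 0 := norm_eq_zero.1 hr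
  have h3 := congrArg g h2
  rw [map_sub, map_nsmul, h0', hg, map_zero] at h3
  apply hψ
  simpa using h3

theorem shift_no_periodic : Per shift = ∅ := by
  rw [eq_empty_iff_forall_notMem]
  rintro ⟨P, x, hx, k, hk, rfl⟩ ⟨m, hm, h⟩
  have h1 := congrArg Subtype.val h
  rw [shift_iter] at h1
  have h2 : ∀ n i, Phi x k (n, i + m) = Phi x k (n, i) := fun n i => congrFun h1 (n, i)
  have hper : ∀ i, x (i + m) = x i := fun i => congrArg Prod.fst (h2 0 i)
  have h3 := congrArg Prod.snd (h2 m 0)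
  simp only [Phi, hper] at h3
  have h4 := mul_left_cancel₀ (rho_ne_zero_of_periodic hx hm hper m 0) h3
  refine hk.2 m (0 + m) 0 (by omega) (by simp) (by exact_mod_cast h4)

theorem shift_cwExpansive : CwExpansive shift := by
  obtain ⟨δ, hδ, hδ'⟩ := close_coords {(0, 0)} (finite_singleton _) (fun _ => 1 / 6)
    (fun _ => by norm_num)
  refine ⟨δ / 2, by positivity, ?_⟩
  rintro ⟨P, x, hx, k, hk, rfl⟩ t ht hpre
  have hfib : ∀ Q ∈ t, ∀ p : ℕ × ℤ,
      (Q : Y) p ∈ range fun a : ℕ => ((x p.2, rho p.1 (x p.2) * a) : T × ℝ) := by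
    rintro ⟨Q, y, hy, k', hk', rfl⟩ hQ p
    obtain ⟨hs, hu⟩ := ht hQ
    have hxy : x = y := by
      refine base_expansive hx hy fun i => ?_
      have hi : dist (sh i (Phi x k)) (sh i (Phi y k')) < δ := by
        rcases le_total 0 i with h | h
        · have := hs i.toNat
          rw [Subtype.dist_eq, shift_iter, shift_iter, Int.toNat_of_nonneg h] at this
          linarith
        · have := hu (-i).toNat
          rw [Subtype.dist_eq, shift_symm_iter, shift_symm_iter,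
            Int.toNat_of_nonneg (by omega), neg_neg] at this
          linarith
      have := hδ' _ _ hi (0, 0) rfl
      rw [Prod.dist_eq, max_lt_iff] at this
      simpa [sh, Phi] using this.1
    subst hxy
    exact ⟨k' p, rfl⟩
  intro Q hQ Q' hQ'
  apply Subtype.ext
  funext p
  have hc : Continuous fun Q : Xs => (Q : Y) p :=
    (uc_coord p).continuous.comp continuous_subtype_val
  have htd := (countable_range fun a : ℕ =>
    ((x p.2, rho p.1 (x p.2) * a) : T × ℝ)).isTotallyDisconnected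
  have := htd ((fun Q : Xs => (Q : Y) p) '' t) (by rintro _ ⟨R, hR, rfl⟩; exact hfib R hR p)
    (hpre.image _ hc.continuousOn)
  exact this ⟨Q, hQ, rfl⟩ ⟨Q', hQ', rfl⟩

/-! ### Local product structure -/

lemma base_unique {x y : ℤ → T} (hx : x ∈ Bs) (hy : y ∈ Bs) (h0 : x 0 = y 0) (h1 : x 1 = y 1) :
    x = y := by
  have h : ∀ i : ℤ, x i = y i ∧ x (i + 1) = y (i + 1) := by
    intro i
    induction i using Int.induction_on with
    | zero => exact ⟨h0, by simpa using h1⟩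
    | succ i ih =>
      refine ⟨ih.2, ?_⟩
      have e1 := hx (i + 1)
      have e2 := hy (i + 1)
      rw [add_sub_cancel_right] at e1 e2
      rw [ih.1, ih.2, ← e2] at e1
      exact add_right_cancel e1
    | pred i ih =>
      have e1 := hx (-i)
      have e2 := hy (-i)
      rw [ih.1, ih.2, ← e2] at e1
      exact ⟨add_left_cancel e1, by simpa using ih.1⟩
  funext i; exact (h i).1

lemma base_bracket {x y : ℤ → T} (hx : x ∈ Bs) (hy : y ∈ Bs) {η : ℝ}
    (h0 : dist (x 0) (y 0) < η / 2) (h1 : dist (x 1) (y 1) < η / 2) :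
    ∃ s u : ℝ, |s| ≤ η ∧ |u| ≤ η ∧ arc x lam⁻¹ s = arc y lam u := by
  obtain ⟨a, ha, ha'⟩ := exists_lift (x 0 - y 0)
  obtain ⟨b, hb, hb'⟩ := exists_lift (x 1 - y 1)
  rw [dist_eq_norm, ← ha'] at h0
  rw [dist_eq_norm, ← hb'] at h1
  have hl := lam_add_inv
  have hl2 := lam_ge
  have hl0 := lam_pos
  have hi0 : 0 < lam⁻¹ := by positivity
  have hi1 : lam⁻¹ ≤ 1 / 2 := by
    rw [inv_le_comm₀ hl0 (by norm_num)]; simpa using hl2
  have hd : 2 ≤ lam - lam⁻¹ := by linarith
  set u : ℝ := (b - a * lam⁻¹) / (lam - lam⁻¹) with hu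
  have hu' : u * (lam - lam⁻¹) = b - a * lam⁻¹ := by
    rw [hu]; exact div_mul_cancel₀ _ (by linarith)
  have hua : |u| ≤ η / 2 := by
    have e : |u| * (lam - lam⁻¹) = |b - a * lam⁻¹| := by
      rw [← hu', abs_mul, abs_of_pos (by linarith : 0 < lam - lam⁻¹)]
    have e2 : |b - a * lam⁻¹| ≤ |b| + |a| * lam⁻¹ := by
      refine (abs_sub _ _).trans ?_
      rw [abs_mul, abs_of_pos hi0]
    have e3 : |a| * lam⁻¹ ≤ |a| := by nlinarith [abs_nonneg a]
    nlinarith [abs_nonneg u]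
  have hη : 0 ≤ η := by linarith [abs_nonneg a]
  refine ⟨u - a, u, ?_, by linarith, ?_⟩
  · exact (abs_sub _ _).trans (by linarith)
  · refine base_unique (arc_mem hx hi0 (by rw [inv_inv]; linarith) _) (arc_mem hy hl0 hl _) ?_ ?_
    · simp only [arc, zpow_zero, mul_one]
      rw [AddCircle.coe_sub, ha]; abel
    · simp only [arc, zpow_one]
      have : (u - a) * lam⁻¹ = u * lam - b := by linarith
      rw [this, AddCircle.coe_sub, hb]; abel

lemma Cset_comp {x : ℤ → T} (hx : x ∈ Bs) {k : ℕ × ℤ → ℕ} (hk : k ∈ Ks) {μ η : ℝ} (hμ : 0 < μ)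
    (hμ3 : μ + μ⁻¹ = 3) (hη : 0 ≤ η) (W : Set Xs)
    (hW : ∀ Q : Xs, (Q : Y) ∈ Cset x k μ η → Q ∈ W) (Q : Xs) (hQ : (Q : Y) ∈ Cset x k μ η) :
    Q ∈ connectedComponentIn W ⟨Phi x k, x, hx, k, hk, rfl⟩ := by
  have hsub : Cset x k μ η ⊆ Xs := by
    rintro _ ⟨t, -, c, hc, -, rfl⟩
    exact ⟨_, arc_mem hx hμ hμ3 t, c, hc, rfl⟩
  have hpre : IsPreconnected ((Subtype.val : Xs → Y) ⁻¹' Cset x k μ η) := by
    rw [← Topology.IsInducing.subtypeVal.isPreconnected_image,
      image_preimage_eq_of_subset (by simpa using hsub)]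
    exact Cset_preconnected x hk hμ hη
  refine hpre.subset_connectedComponentIn ?_ hW hQ
  exact ⟨0, by simpa using hη, k, hk, fun _ _ => rfl, by rw [arc_zero]⟩

lemma not_mem_S {x : ℤ → T} {η : ℝ} {M : ℕ} (hη : 0 < η) (hM : 1 ≤ η * lam ^ M) {n : ℕ} {i e : ℤ}
    (h : ¬ rho n (x i) ≤ 3 ^ n * η * lam ^ e) : n + e < M := by
  by_contra hc
  push Not at hc h
  have h1 := rho_le_half n (x i)
  have h2 : lam ^ n ≤ 3 ^ n := pow_le_pow_left₀ lam_pos.le lam_le n
  have h3 : lam ^ (M : ℤ) ≤ lam ^ ((n : ℤ) + e) :=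
    zpow_le_zpow_right₀ (by linarith [lam_ge]) hc
  rw [zpow_add₀ lam_pos.ne', zpow_natCast, zpow_natCast] at h3
  have h4 : 0 < lam ^ e := zpow_pos lam_pos e
  have h5 : lam ^ n * lam ^ e ≤ 3 ^ n * lam ^ e := by gcongr
  have h6 : η * lam ^ M ≤ η * (3 ^ n * lam ^ e) := by gcongr; linarith
  nlinarith

theorem shift_cwLocalProduct : CwLocalProduct shift := by
  classical
  intro ε hε
  have hl1 : 1 ≤ lam := by linarith [lam_ge]
  have hi0 : 0 < lam⁻¹ := inv_pos.2 lam_pos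
  obtain ⟨η, hη, hη'⟩ := close_of_coords
    (fun p => (2 * L p.1 + 1) * 3 ^ p.1 * (lam ^ p.2 + lam ^ (-p.2))) hε
  obtain ⟨M, hM⟩ : ∃ M : ℕ, 1 ≤ η * lam ^ M := by
    obtain ⟨M, hM⟩ := pow_unbounded_of_one_lt (1 / η) (show 1 < lam by linarith [lam_ge])
    refine ⟨M, ?_⟩
    rw [div_lt_iff₀ hη] at hM
    linarith
  have hfin : (Iic (2 * M) ×ˢ Icc (-(M + 1 : ℤ)) (M + 1)).Finite :=
    (finite_Iic _).prod (finite_Icc _ _)
  obtain ⟨δ, hδ, hδ'⟩ := close_coords _ hfin
    (fun p => min (η / 2) (3 ^ p.1 * η * lam ^ (-p.2) / (1 + L p.1 * 3 ^ p.1))) (fun p => by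
      have := lam_pos
      positivity)
  refine ⟨δ, hδ, ?_⟩
  rintro ⟨P, x, hx, k, hk, rfl⟩ ⟨Q, y, hy, k', hk', rfl⟩ hPQ
  have hc := hδ' _ _ hPQ
  have hxy : ∀ i : ℤ, i = 0 ∨ i = 1 → dist (x i) (y i) < η / 2 := by
    intro i hi
    have := hc (0, i) ⟨by simp, by constructor <;> omega⟩
    rw [Prod.dist_eq, max_lt_iff] at this
    exact this.1.trans_le (min_le_left _ _)
  obtain ⟨s, u, hs, hu, hsu⟩ := base_bracket hx hy (hxy 0 (Or.inl rfl)) (hxy 1 (Or.inr rfl))
  set S := Sset x lam⁻¹ η with hS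
  set U := Sset y lam η with hU
  have H : ∀ (n : ℕ) (i j : ℤ), |i - j| ≤ n → (n, i) ∉ S → (n, j) ∉ U → k (n, i) = k' (n, i) := by
    intro n i j hd hi hj
    have hi' : ¬ rho n (x i) ≤ 3 ^ n * η * lam ^ (-i) := by
      rw [zpow_neg, ← inv_zpow]; exact hi
    have h1 := not_mem_S hη hM hi'
    have h2 := not_mem_S hη hM hj
    rw [abs_le] at hd
    have h3 := hc (n, i) ⟨by simp only [mem_Iic]; omega, by constructor <;> omega⟩
    rw [Prod.dist_eq, max_lt_iff] at h3
    have h4 := h3.1.trans_le (min_le_right _ _)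
    have h5 := h3.2.trans_le (min_le_right _ _)
    simp only [Phi, Real.dist_eq] at h4 h5
    set τ := 3 ^ n * η * lam ^ (-i) / (1 + L n * 3 ^ n) with hτ
    have hτ' : τ * (1 + L n * 3 ^ n) = 3 ^ n * η * lam ^ (-i) := by
      rw [hτ]; field_simp
    by_contra hne
    apply hi'
    have h6 : |rho n (x i) - rho n (y i)| ≤ 3 ^ n * τ :=
      (rho_lip _ _ _).trans (by gcongr)
    have h7 : (1 : ℝ) ≤ |(k (n, i) : ℝ) - k' (n, i)| := by
      have : (1 : ℤ) ≤ |(k (n, i) : ℤ) - k' (n, i)| :=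
        Int.one_le_abs (sub_ne_zero.2 (by exact_mod_cast hne))
      exact_mod_cast this
    have h8 : (k' (n, i) : ℝ) ≤ L n := by exact_mod_cast hk'.1 (n, i)
    have h9 : rho n (x i) * ((k (n, i) : ℝ) - k' (n, i)) =
        (rho n (x i) * k (n, i) - rho n (y i) * k' (n, i)) -
          (rho n (x i) - rho n (y i)) * k' (n, i) := by ring
    have h10 : |rho n (x i) * ((k (n, i) : ℝ) - k' (n, i))| ≤ τ + 3 ^ n * τ * L n := by
      rw [h9]
      refine (abs_sub _ _).trans (add_le_add h5.le ?_)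
      rw [abs_mul, Nat.abs_cast]
      have : (0 : ℝ) ≤ 3 ^ n * τ := (abs_nonneg _).trans h6
      gcongr
    rw [abs_mul, abs_of_nonneg (rho_nonneg _ _)] at h10
    have r0 := rho_nonneg n (x i)
    nlinarith
  obtain ⟨z, hz, hzk, hzk'⟩ := exists_fresh k k'
  set c : ℕ × ℤ → ℕ := fun p => if p ∉ S then k p else if p ∉ U then k' p else z p with hcdef
  have hck : ∀ p ∉ S, c p = k p := fun p hp => by simp only [hcdef, hp, not_false_iff, if_true]
  have hck' : ∀ p ∉ U, c p = k' p := by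
    rintro ⟨n, i⟩ hp
    by_cases h : (n, i) ∈ S
    · simp only [hcdef, hp, h, not_false_iff, not_true, if_true, if_false]
    · rw [hck _ h]; exact H n i i (by simp) h hp
  have hcz : ∀ p ∈ S, p ∈ U → c p = z p := fun p hp hp' => by
    simp only [hcdef, hp, hp', not_true, if_false]
  have hcK : c ∈ Ks := by
    refine ⟨fun p => ?_, fun n i j hij hd => ?_⟩
    · by_cases h : p ∈ S
      · by_cases h' : p ∈ U
        · rw [hcz p h h']; exact hz.1 p
        · rw [hck' p h']; exact hk'.1 p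
      · rw [hck p h]; exact hk.1 p
    · have hd' : |j - i| ≤ n := by rwa [abs_sub_comm]
      by_cases hiS : (n, i) ∈ S <;> by_cases hiU : (n, i) ∈ U <;>
        by_cases hjS : (n, j) ∈ S <;> by_cases hjU : (n, j) ∈ U
      all_goals first
        | (rw [hck _ hiS, hck _ hjS]; exact hk.2 n i j hij hd)
        | (rw [hck' _ hiU, hck' _ hjU]; exact hk'.2 n i j hij hd)
        | (rw [hcz _ hiS hiU, hcz _ hjS hjU]; exact hz.2 n i j hij hd)
        | (rw [hcz _ hiS hiU, hck _ hjS]; exact hzk n i j hij hd)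
        | (rw [hcz _ hiS hiU, hck' _ hjU]; exact hzk' n i j hij hd)
        | (rw [hcz _ hjS hjU, hck _ hiS]; exact (hzk n j i hij.symm hd').symm)
        | (rw [hcz _ hjS hjU, hck' _ hiU]; exact (hzk' n j i hij.symm hd').symm)
        | (rw [hck _ hiS, hck' _ hjU, H n i j hd hiS hjU]; exact hk'.2 n i j hij hd)
        | (rw [hck _ hjS, hck' _ hiU, H n j i hd' hjS hiU]; exact hk'.2 n i j hij hd)
  have hl3 : lam⁻¹ + lam⁻¹⁻¹ = 3 := by rw [inv_inv]; linarith [lam_add_inv]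
  refine ⟨⟨Phi (arc x lam⁻¹ s) c, _, arc_mem hx hi0 hl3 s, c, hcK, rfl⟩, ?_, ?_⟩
  · refine Cset_comp hx hk hi0 hl3 hη.le (Ws shift ε _) (fun R hR m => ?_) _
      ⟨s, hs, c, hcK, hck, rfl⟩
    rw [Subtype.dist_eq, shift_iter, shift_iter]
    refine hη' _ _ fun p => ?_
    have h1 := Cset_bound hk hi0 hR (p.1, p.2 + m)
    rw [dist_comm] at h1
    refine h1.trans ?_
    have h2 : lam⁻¹ ^ (p.2 + m) ≤ lam ^ (-p.2) := by
      rw [inv_zpow, ← zpow_neg]
      exact zpow_le_zpow_right₀ hl1 (by omega)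
    have h3 : 0 < lam ^ p.2 := zpow_pos lam_pos _
    have h4 : lam⁻¹ ^ (p.2 + m) ≤ lam ^ p.2 + lam ^ (-p.2) := by linarith
    calc (2 * (L p.1 : ℝ) + 1) * 3 ^ p.1 * η * lam⁻¹ ^ (p.2 + m)
        ≤ (2 * (L p.1 : ℝ) + 1) * 3 ^ p.1 * η * (lam ^ p.2 + lam ^ (-p.2)) := by gcongr
      _ = _ := by ring
  · refine Cset_comp hy hk' lam_pos lam_add_inv hη.le (Wu shift ε _) (fun R hR m => ?_) _
      ⟨u, hu, c, hcK, hck', congrArg (fun w => Phi w c) hsu.symm⟩
    rw [Subtype.dist_eq, shift_symm_iter, shift_symm_iter]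
    refine hη' _ _ fun p => ?_
    have h1 := Cset_bound hk' lam_pos hR (p.1, p.2 + -m)
    rw [dist_comm] at h1
    refine h1.trans ?_
    have h2 : lam ^ (p.2 + -m) ≤ lam ^ p.2 := zpow_le_zpow_right₀ hl1 (by omega)
    have h3 : 0 < lam ^ (-p.2) := zpow_pos lam_pos _
    have h4 : lam ^ (p.2 + -m) ≤ lam ^ p.2 + lam ^ (-p.2) := by linarith
    calc (2 * (L p.1 : ℝ) + 1) * 3 ^ p.1 * η * lam ^ (p.2 + -m)
        ≤ (2 * (L p.1 : ℝ) + 1) * 3 ^ p.1 * η * (lam ^ p.2 + lam ^ (-p.2)) := by gcongr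
      _ = _ := by ring

theorem shift_cwHyperbolic : CwHyperbolic shift := ⟨shift_cwExpansive, shift_cwLocalProduct⟩

/-- The non-wandering set of a homeomorphism of a nonempty compact space is nonempty. -/
theorem nonWandering_nonempty {X : Type} [MetricSpace X] [CompactSpace X] [Nonempty X]
    (f : X ≃ₜ X) : (NonWandering f).Nonempty := by
  obtain ⟨x₀⟩ := ‹Nonempty X›
  obtain ⟨x, hx⟩ := exists_clusterPt_of_compactSpace (map (fun n : ℕ => f^[n] x₀) atTop)
  refine ⟨x, fun U hU => ?_⟩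
  have hfr : ∃ᶠ n in atTop, f^[n] x₀ ∈ U := (mapClusterPt_iff_frequently.1 hx) U hU
  obtain ⟨a, ha⟩ := hfr.exists
  obtain ⟨b, hb, hab⟩ := (hfr.and_eventually (eventually_gt_atTop a)).exists
  refine ⟨b - a, by omega, f^[b] x₀, ⟨f^[a] x₀, ha, ?_⟩, hb⟩
  rw [← Function.iterate_add_apply]
  congr 1
  omega

end Pool.Agent.Lib.MP_5938af_an
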